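import Pool.Agent.Helper15.UL.GoalsE

/-!
# MP_57a173_lc, Part E, packet PFC
-/

namespace UL.PkPFC

open Cardinal

variable {J : Type}

/-- the arities -/
def ar : J ⊕ Bool → Type
  | Sum.inl _ => Empty
  | Sum.inr true => Unit
  | Sum.inr false => ℕ

/-- a formula as a tree -/
def toW : PF J → WType (ar (J := J))
  | PF.atom j => WType.mk (Sum.inl j) (fun x : Empty => x.elim)
  | PF.neg c => WType.mk (Sum.inr true) (fun _ : Unit => toW c)
  | PF.or c => WType.mk (Sum.inr false) (fun n : ℕ => toW (c n))

/-- one step of the inverse map -/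
def st : (Σ a : J ⊕ Bool, ar a → PF J) → PF J
  | ⟨Sum.inl j, _⟩ => PF.atom j
  | ⟨Sum.inr true, c⟩ => PF.neg (c ())
  | ⟨Sum.inr false, c⟩ => PF.or (fun n => c n)

theorem left_inv (c : PF J) : WType.elim (PF J) st (toW c) = c := by
  induction c with
  | atom j => rfl
  | neg c ih => exact congrArg PF.neg ih
  | or c ih => exact congrArg PF.or (funext ih)

theorem thm : UL.G_PFC := by
  intro J hJ
  have h1 : #(PF J) ≤ #(WType (ar (J := J))) :=
    Cardinal.mk_le_of_injective (Function.LeftInverse.injective (g := WType.elim (PF J) st) left_inv)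
  refine h1.trans (WType.cardinalMk_le_of_le ?_)
  have h2 : ∀ a : J ⊕ Bool, (continuum : Cardinal.{0}) ^ #(ar a) ≤ continuum := by
    rintro (j | b)
    · have e : #(ar (Sum.inl j : J ⊕ Bool)) = 0 := Cardinal.mk_eq_zero Empty
      rw [e, power_zero]
      exact one_le_aleph0.trans aleph0_le_continuum
    · cases b
      · have e : #(ar (Sum.inr false : J ⊕ Bool)) = ℵ₀ := Cardinal.mk_eq_aleph0 ℕ
        rw [e, continuum_power_aleph0]
      · have e : #(ar (Sum.inr true : J ⊕ Bool)) = 1 := Cardinal.mk_eq_one Unit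
        rw [e, power_one]
  refine (Cardinal.sum_le_sum _ (fun _ => continuum) h2).trans ?_
  rw [Cardinal.sum_const']
  have h3 : #(J ⊕ Bool) ≤ continuum := by
    rw [Cardinal.mk_sum, Cardinal.lift_id, Cardinal.lift_id]
    have h4 : #Bool ≤ continuum := (Cardinal.mk_le_aleph0).trans aleph0_le_continuum
    exact (add_le_add hJ h4).trans (by rw [continuum_add_self])
  exact (mul_le_mul' h3 le_rfl).trans (by rw [continuum_mul_self])

end UL.PkPFC
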